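import Mathlib
import Pool.Agent.H29.QuatM

namespace Pool.Agent.Results.MP_dceaed_al.Classify
open Quaternion Matrix Pool.Agent.H29.QuatM

variable {n : ℕ}

/-- the `φ`-numerical range -/
def W (φ : ℍ[ℝ] → ℍ[ℝ]) (α : ℍ[ℝ]) (A : Mat n) : Set ℍ[ℝ] :=
  {w | ∃ x : Fin n → ℍ[ℝ], (fun i => φ (x i)) ⬝ᵥ x = α ∧ w = form φ A x x}

/-- the exceptional family for `n = 2` -/
def Special (φ : ℍ[ℝ] → ℍ[ℝ]) (A : Mat n) : Prop :=
  ∀ p q, p ≠ q → φ (A p p) = star (A p p) ∧ φ (A p q) = star (A p q) ∧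
    A q q = star (A p p) ∧ A q p = -star (A p q)

section
variable {φ : ℍ[ℝ] →ₗ[ℝ] ℍ[ℝ]} (h : NonStd φ)
include h

lemma basis : ∃ β γ : ℍ[ℝ], ‖β‖ = 1 ∧ (∀ q, φ q = -(β * star q * β)) ∧ β * β = -1 ∧ γ * γ = -1 ∧
    γ * β = -(β * γ) ∧ star β = -β ∧ star γ = -γ := by
  obtain ⟨q, hq⟩ : ∃ q, q - φ q ≠ 0 := by
    by_contra hc
    push Not at hc
    have e : ∀ q, φ q = q := fun q => (sub_eq_zero.1 (hc q)).symm
    have := h.1 ⟨0, 1, 0, 0⟩ ⟨0, 0, 1, 0⟩
    simp only [e] at this
    have := congrArg QuaternionAlgebra.imK this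
    norm_num at this
  obtain ⟨β, hβ, hn⟩ : ∃ β : ℍ[ℝ], φ β = -β ∧ ‖β‖ = 1 :=
    ⟨‖q - φ q‖⁻¹ • (q - φ q), by rw [map_smul, map_sub, h.2.1, ← smul_neg, neg_sub],
      norm_smul_inv_norm hq⟩
  have hst := nonstd h hβ hn
  have hbb : β * β = -1 := by
    have := hst 1
    rw [phi_one φ.toAddMonoidHom h.1 h.2.1 |> (fun e => (e : φ 1 = 1)), star_one, mul_one,
      neg_mul] at this
    exact neg_eq_iff_eq_neg.1 this.symm
  have hφq : ∀ q, φ q = -(β * star q * β) := fun q => by
    rw [hst q, ← mul_assoc, ← mul_assoc, mul_neg, hbb, neg_neg, one_mul, mul_assoc, hbb]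
    simp
  have hsb : star β = -β := by rw [hst, hβ, neg_mul_neg, hbb, neg_one_mul]
  obtain ⟨a, ha, hre, hab⟩ : ∃ a : ℍ[ℝ], a ≠ 0 ∧ a.re = 0 ∧ a * β = -(β * a) := by
    have hr := star_eq_neg.1 hsb
    by_cases h : β.imI = 0 ∧ β.imJ = 0
    · refine ⟨⟨0, 1, 0, 0⟩, fun h => by simpa using congrArg QuaternionAlgebra.imI h, rfl, ?_⟩
      ext <;> simp [h.1, h.2, hr]
    · refine ⟨⟨0, -β.imJ, β.imI, 0⟩, fun h' => h ⟨?_, ?_⟩, rfl, ?_⟩
      · simpa using congrArg QuaternionAlgebra.imJ h'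
      · simpa using congrArg QuaternionAlgebra.imI h'
      · ext <;> simp [hr] <;> ring
  have hs : star (‖a‖⁻¹ • a) = -(‖a‖⁻¹ • a) := star_eq_neg.2 (by simp [hre])
  refine ⟨β, ‖a‖⁻¹ • a, hn, hφq, hbb, ?_, by simp [hab], hsb, hs⟩
  have := star_mul_self (‖a‖⁻¹ • a)
  rw [hs, normSq_eq_norm_mul_self, show ‖‖a‖⁻¹ • a‖ = 1 by
    rw [norm_smul, norm_inv, norm_norm, inv_mul_cancel₀ (norm_ne_zero_iff.2 ha)], neg_mul] at this
  rw [← neg_neg (_ * _), this]
  simp

lemma form_add (A : Mat n) (x y : Fin n → ℍ[ℝ]) (a b : ℍ[ℝ]) :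
    form φ A (fun i => x i * a + y i * b) (fun i => x i * a + y i * b) =
      φ a * form φ A x x * a + φ a * form φ A x y * b + φ b * form φ A y x * a +
        φ b * form φ A y y * b := by
  simp only [form, dotProduct, mulVec, map_add, h.1, mul_add, add_mul, Finset.sum_add_distrib,
    Finset.mul_sum, Finset.sum_mul, mul_assoc]
  abel

lemma null (α : ℍ[ℝ]) (hα : φ α = α) (A : Mat n) (hb : Bornology.IsBounded (W φ α A))
    (y w : Fin n → ℍ[ℝ]) (h1 : form φ 1 y y = 0) (h2 : form φ 1 w w = 0) (h3 : form φ 1 y w = 1)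
    (h4 : form φ 1 w y = 1) : form φ A y y = 0 := by
  have hr : ∀ r : ℝ, φ (r : ℍ[ℝ]) = r := fun r => by
    rw [← mul_one (r : ℍ[ℝ]), coe_mul_eq_smul, map_smul,
      phi_one φ.toAddMonoidHom h.1 h.2.1 |> (fun e => (e : φ 1 = 1))]
  obtain ⟨M, hM⟩ := isBounded_iff_forall_norm_le.1 hb
  have key : ∀ s : ℝ, 1 ≤ s → s ^ 2 * ‖form φ A y y‖ ≤ M + ‖form φ A y w * α + α * form φ A w y‖ +
      ‖α * form φ A w w * α‖ := by
    intro s hs
    have hs0 : s ≠ 0 := by linarith
    have e : ∀ B : Mat n, form φ B (fun i => y i * (s : ℍ[ℝ]) + w i * ((2 * s)⁻¹ • α))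
        (fun i => y i * (s : ℍ[ℝ]) + w i * ((2 * s)⁻¹ • α)) = (s ^ 2) • form φ B y y +
        (2⁻¹ : ℝ) • (form φ B y w * α + α * form φ B w y) +
        ((2 * s)⁻¹ ^ 2) • (α * form φ B w w * α) := by
      intro B
      rw [form_add h, hr, map_smul, hα]
      simp only [coe_mul_eq_smul, mul_coe_eq_smul, smul_mul_assoc, mul_smul_comm, smul_smul,
        smul_add]
      rw [show (2 * s)⁻¹ * s = 2⁻¹ by field_simp, ← sq, ← sq]
      abel
    have h5 := hM _ ⟨fun i => y i * (s : ℍ[ℝ]) + w i * ((2 * s)⁻¹ • α), by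
      have := e 1
      rw [h1, h2, h3, h4] at this
      simp only [form, one_mulVec] at this
      rw [this]
      simp only [smul_zero, one_mul, mul_one, mul_zero, zero_mul, zero_add, add_zero]
      rw [← two_smul ℝ, smul_smul]
      simp, rfl⟩
    rw [e] at h5
    generalize form φ A y y = P at h5 ⊢
    generalize form φ A y w * α + α * form φ A w y = Q at h5 ⊢
    generalize α * form φ A w w * α = T at h5 ⊢
    have h7 : ‖(s ^ 2) • P‖ ≤ M + ‖(2⁻¹ : ℝ) • Q‖ + ‖((2 * s)⁻¹ ^ 2) • T‖ := by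
      generalize (s ^ 2) • P = P' at h5 ⊢
      generalize (2⁻¹ : ℝ) • Q = Q' at h5 ⊢
      generalize ((2 * s)⁻¹ ^ 2) • T = T' at h5 ⊢
      have a1 := norm_sub_le (P' + Q' + T') T'
      have a2 := norm_sub_le (P' + Q') Q'
      rw [add_sub_cancel_right] at a1 a2
      linarith
    simp only [norm_smul, Real.norm_eq_abs, abs_pow, sq_abs] at h7
    have h8 : (2 * s)⁻¹ ^ 2 ≤ 1 := by
      apply pow_le_one₀ (by positivity)
      exact inv_le_one_of_one_le₀ (by linarith)
    have h9 : |(2⁻¹ : ℝ)| ≤ 1 := by rw [abs_of_pos] <;> norm_num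
    nlinarith [norm_nonneg Q, norm_nonneg T]
  by_contra hne
  have hpos := norm_pos_iff.2 hne
  set K := M + ‖form φ A y w * α + α * form φ A w y‖ + ‖α * form φ A w w * α‖
  have hK : 0 ≤ K := le_trans (by positivity) (key 1 le_rfl)
  have h5 := key (K / ‖form φ A y y‖ + 1) (by have := div_nonneg hK hpos.le; linarith)
  have h6 : K / ‖form φ A y y‖ * ‖form φ A y y‖ = K := div_mul_cancel₀ _ hpos.ne'
  nlinarith [div_nonneg hK hpos.le, mul_nonneg (sq_nonneg (K / ‖form φ A y y‖)) hpos.le]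

lemma null2 (α : ℍ[ℝ]) (hα : φ α = α) (A : Mat n) (hb : Bornology.IsBounded (W φ α A))
    (u v : Fin n → ℍ[ℝ]) (h1 : form φ 1 u u = 1) (h2 : form φ 1 v v = -1)
    (h3 : form φ 1 u v = 0) (h4 : form φ 1 v u = 0) :
    form φ A u u + form φ A v v = 0 ∧ form φ A u v + form φ A v u = 0 := by
  have h1' : φ 1 = 1 := phi_one φ.toAddMonoidHom h.1 h.2.1
  have bil : ∀ (B : Mat n) (a b c d : ℝ), form φ B (a • u + b • v) (c • u + d • v) =
      (a * c) • form φ B u u + (a * d) • form φ B u v + (b * c) • form φ B v u +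
        (b * d) • form φ B v v := by
    intro B a b c d
    simp only [form, mulVec_add, mulVec_smul, dotProduct, Pi.add_apply, Pi.smul_apply, map_add,
      map_smul, mul_add, add_mul, smul_mul_assoc, mul_smul_comm, Finset.sum_add_distrib,
      ← Finset.smul_sum, smul_smul, smul_add, mul_comm c, mul_comm d]
    abel
  have k : ∀ e : ℝ, e * e = 1 → form φ A ((1 : ℝ) • u + e • v) ((1 : ℝ) • u + e • v) = 0 := by
    intro e he
    refine null h α hα A hb _ ((2⁻¹ : ℝ) • u + (-2⁻¹ * e) • v) ?_ ?_ ?_ ?_ <;>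
      simp only [bil, h1, h2, h3, h4, smul_zero, add_zero, smul_neg, ← sub_eq_add_neg, ← sub_smul]
    · rw [he]; simp
    · rw [show (2⁻¹ * 2⁻¹ - -2⁻¹ * e * (-2⁻¹ * e) : ℝ) = 0 by linear_combination (-4⁻¹) * he]
      simp
    · rw [show (1 * 2⁻¹ - e * (-2⁻¹ * e) : ℝ) = 1 by linear_combination (2⁻¹) * he]
      simp
    · rw [show (2⁻¹ * 1 - -2⁻¹ * e * e : ℝ) = 1 by linear_combination (2⁻¹) * he]
      simp
  have k1 := k 1 (by norm_num)
  have k2 := k (-1) (by norm_num)
  rw [bil] at k1 k2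
  simp only [mul_one, one_smul, mul_neg, neg_smul, neg_neg, one_mul] at k1 k2
  generalize form φ A u u = a at k1 k2 ⊢
  generalize form φ A u v = b at k1 k2 ⊢
  generalize form φ A v u = c at k1 k2 ⊢
  generalize form φ A v v = d at k1 k2 ⊢
  constructor
  · have : (2 : ℝ) • (a + d) = (a + b + c + d) + (a + -b + -c + d) := by rw [two_smul]; abel
    rw [k1, k2, add_zero] at this
    exact (smul_eq_zero.1 this).resolve_left two_ne_zero
  · have : (2 : ℝ) • (b + c) = (a + b + c + d) - (a + -b + -c + d) := by rw [two_smul]; abel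
    rw [k1, k2, sub_zero] at this
    exact (smul_eq_zero.1 this).resolve_left two_ne_zero

omit h in
lemma form_single (B : Mat n) (p q : Fin n) (a b : ℍ[ℝ]) :
    form φ B (Pi.single p a) (Pi.single q b) = φ a * B p q * b := by
  rw [form, dotProduct, Finset.sum_eq_single p (fun j _ hj => by simp [hj]) (by simp)]
  simp [mul_assoc]

omit h in
lemma form_addl (B : Mat n) (x y z : Fin n → ℍ[ℝ]) :
    form φ B (x + y) z = form φ B x z + form φ B y z := by
  simp [form, dotProduct, add_mul, Finset.sum_add_distrib]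

omit h in
lemma form_addr (B : Mat n) (x y z : Fin n → ℍ[ℝ]) :
    form φ B z (x + y) = form φ B z x + form φ B z y := by
  simp [form, mulVec_add]

end

lemma dec {β z : ℍ[ℝ]} (hβ : ‖β‖ = 1) (hs : star β = -β) (hz : β * z = z * β) :
    ∃ r s : ℝ, z = r • (1 : ℍ[ℝ]) + s • β := by
  have hre := star_eq_neg.1 hs
  have hns : normSq β = 1 := by rw [normSq_eq_norm_mul_self, hβ, one_mul]
  rw [normSq_def', hre] at hns
  have eI := congrArg QuaternionAlgebra.imI hz
  have eJ := congrArg QuaternionAlgebra.imJ hz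
  have eK := congrArg QuaternionAlgebra.imK hz
  simp [hre] at eI eJ eK
  refine ⟨z.re, z.imI * β.imI + z.imJ * β.imJ + z.imK * β.imK, ?_⟩
  ext <;> simp [hre]
  · linear_combination (-z.imI) * hns + (β.imK / 2) * eJ - (β.imJ / 2) * eK
  · linear_combination (-z.imJ) * hns + (β.imI / 2) * eK - (β.imK / 2) * eI
  · linear_combination (-z.imK) * hns + (β.imJ / 2) * eI - (β.imI / 2) * eJ

theorem result (φ : ℍ[ℝ] →ₗ[ℝ] ℍ[ℝ]) (h : NonStd φ) (α : ℍ[ℝ]) (hα : φ α = α) (n : ℕ)
    (hn : 1 ≤ n) (A : Mat n) :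
    Bornology.IsBounded (W φ α A) ↔
      n = 1 ∨ (n = 2 ∧ Special φ A) ∨ ∃ a : ℝ, A = a • (1 : Mat n) := by
  obtain ⟨β, γ, hβ, hφ, hbb, hgg, hgb, hsb, hsg⟩ := basis h
  have h1 : φ 1 = 1 := phi_one φ.toAddMonoidHom h.1 h.2.1
  have hb1 : ∀ x : ℍ[ℝ], β * (β * x) = -x := fun x => by rw [← mul_assoc, hbb, neg_one_mul]
  have hg1 : ∀ x : ℍ[ℝ], γ * (γ * x) = -x := fun x => by rw [← mul_assoc, hgg, neg_one_mul]
  have hgb1 : ∀ x : ℍ[ℝ], γ * (β * x) = -(β * (γ * x)) := fun x => by
    rw [← mul_assoc, hgb, neg_mul, mul_assoc]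
  have hφβ : φ β = -β := by rw [hφ, hsb]; simp [hbb]
  have hφγ : φ γ = γ := by rw [hφ, hsg]; simp [mul_assoc, hgb, hb1]
  have hφδ : φ (β * γ) = β * γ := by rw [h.1, hφβ, hφγ, mul_neg, hgb, neg_neg]
  have hdd : β * γ * (β * γ) = -1 := by rw [mul_assoc, hgb1, hgg]; simp [hbb]
  have hnφ : ∀ q, ‖φ q‖ = ‖q‖ := fun q => by rw [hφ]; simp [hβ]
  constructor
  · intro hb
    have cx : ∀ z : ℍ[ℝ], γ * z * γ = β * γ * z * (β * γ) → φ z = star z ∧
        γ * z * γ = -star z := by
      intro z hz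
      have e1 : β * z = z * β := by
        have e0 : β * γ = -(γ * β) := by rw [hgb, neg_neg]
        nth_rewrite 1 [e0] at hz
        have := congrArg (fun t => β * (γ * (t * γ))) hz
        simp only [mul_assoc, hgg, hb1, hg1, mul_neg, neg_mul, mul_one, neg_neg, neg_inj] at this
        exact this
      obtain ⟨r, s, rfl⟩ := dec hβ hsb e1
      constructor
      · simp [h1, hφβ, hsb]
      · simp [mul_add, add_mul, hsb, hgg, hgb, mul_assoc]
        abel
    have key : ∀ p q : Fin n, p ≠ q → ∀ g : ℍ[ℝ], φ g = g → g * g = -1 →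
        A p p = -(g * A q q * g) ∧ A p q = g * A q p * g := by
      intro p q hpq g hg hg2
      obtain ⟨k1, k2⟩ := null2 h α hα A hb (Pi.single p 1) (Pi.single q g)
        (by simp [form_single, h1]) (by simp [form_single, hg, hg2])
        (by simp [form_single, hpq]) (by simp [form_single, hpq.symm])
      simp only [form_single, h1, hg, one_mul, mul_one] at k1 k2
      refine ⟨eq_neg_of_add_eq_zero_left k1, ?_⟩
      have := congrArg (· * g) k2
      simp only [add_mul, mul_assoc, hg2, zero_mul, mul_neg, mul_one] at this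
      rw [mul_assoc]
      exact neg_add_eq_zero.1 this
    have sp : Special φ A := by
      intro p q hpq
      obtain ⟨a1, a2⟩ := key q p hpq.symm γ hφγ hgg
      obtain ⟨a3, a4⟩ := key q p hpq.symm _ hφδ hdd
      obtain ⟨b1, b2⟩ := cx (A p p) (neg_inj.1 (a1.symm.trans a3))
      obtain ⟨b3, b4⟩ := cx (A p q) (a2.symm.trans a4)
      exact ⟨b1, b3, by rw [a1, b2, neg_neg], by rw [a2, b4]⟩
    rcases (by omega : n = 1 ∨ n = 2 ∨ 3 ≤ n) with h3 | h3 | h3
    · exact Or.inl h3
    · exact Or.inr (Or.inl ⟨h3, sp⟩)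
    refine Or.inr (Or.inr ?_)
    have third : ∀ p q : Fin n, ∃ r, r ≠ p ∧ r ≠ q := by
      intro p q
      by_contra hc
      push Not at hc
      have : (Finset.univ : Finset (Fin n)) ⊆ {p, q} := fun r _ => by
        by_cases hr : r = p
        · simp [hr]
        · simp [hc r hr]
      have := (Finset.card_le_card this).trans (Finset.card_le_two)
      simp at this
      omega
    have diag : ∀ p q : Fin n, A p p = A q q := by
      intro p q
      obtain ⟨r, h1, h2⟩ := third p q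
      rw [(sp r p h1).2.2.1, (sp r q h2).2.2.1]
    let o : Fin n := ⟨0, by omega⟩
    have real : ∀ p, A p p = (A o o).re • (1 : ℍ[ℝ]) := by
      intro p
      obtain ⟨r, h1, -⟩ := third o o
      have := (sp o r h1.symm).2.2.1
      rw [diag r o] at this
      rw [diag p o, star_eq_self.1 this.symm]
      ext <;> simp
    have off : ∀ p q : Fin n, p ≠ q → ∀ l : ℍ[ℝ], φ l * l = 1 → A p q * l + φ l * A q p = 0 := by
      intro p q hpq l hl
      obtain ⟨r, h2, h3⟩ := third p q
      obtain ⟨k1, -⟩ := null2 h α hα A hb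
        (Pi.single p ((3 / 5 : ℝ) • 1) + Pi.single q ((4 / 5 : ℝ) • l)) (Pi.single r γ)
        (by
          simp [form_single, form_addl, form_addr, h1, hpq, hpq.symm, hl, smul_smul]
          rw [← add_smul]; norm_num)
        (by simp [form_single, hφγ, hgg])
        (by simp [form_single, form_addl, h2.symm, h3.symm])
        (by simp [form_single, form_addr, h2, h3])
      simp only [form_single, form_addl, form_addr, real p, real q, real r, map_smul, h1, hφγ,
        smul_mul_assoc, mul_smul_comm, one_mul, mul_one, hl, hgg, smul_smul] at k1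
      have : (12 / 25 : ℝ) • (A p q * l + φ l * A q p) = 0 := by
        rw [← k1]; module
      exact (smul_eq_zero.1 this).resolve_left (by norm_num)
    refine ⟨(A o o).re, ?_⟩
    ext1 p q
    by_cases hpq : p = q
    · subst hpq
      rw [real p]; simp
    · have a1 := off p q hpq 1 (by rw [h1, one_mul])
      have a2 := off p q hpq β (by rw [hφβ, neg_mul, hbb, neg_neg])
      rw [(sp p q hpq).2.2.2] at a1 a2
      rw [h1, mul_one, one_mul, add_neg_eq_zero] at a1
      rw [← a1, hφβ, neg_mul_neg, star_eq_self.1 a1.symm, ← coe_commutes, ← two_smul ℝ] at a2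
      have a3 := (smul_eq_zero.1 a2).resolve_left two_ne_zero
      have a4 := (mul_eq_zero.1 a3).resolve_right (fun h => by simp [h] at hβ)
      rw [star_eq_self.1 a1.symm, a4]
      simp [hpq]
  · rintro (rfl | ⟨rfl, sp⟩ | ⟨a, rfl⟩)
    · refine isBounded_iff_forall_norm_le.2 ⟨‖α‖ * ‖A 0 0‖, ?_⟩
      rintro _ ⟨x, hx, rfl⟩
      simp [dotProduct] at hx
      simp [form, dotProduct, mulVec, ← hx, hnφ]
      apply le_of_eq; ring
    · obtain ⟨s1, s2, s3, s4⟩ := sp 0 1 (by decide)
      have cm : ∀ z : ℍ[ℝ], φ z = star z → ∃ r s : ℝ, z = r • (1 : ℍ[ℝ]) + s • β := by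
        intro z hz
        refine dec hβ hsb ?_
        rw [hφ] at hz
        have := congrArg (fun t => star (β * t)) hz
        simp only [mul_assoc, mul_neg, hb1, neg_neg, star_mul, star_star, hsb, neg_mul,
          neg_inj] at this
        exact this
      obtain ⟨a, t, ha⟩ := cm _ s1
      obtain ⟨b, c, hb⟩ := cm _ s2
      have tri : ∀ x y : ℍ[ℝ], |normSq x - normSq y| ≤ ‖φ x * x + φ y * y‖ := by
        intro x y
        have := abs_norm_sub_norm_le (φ x * x) (-(φ y * y))
        simpa [hnφ, normSq_eq_norm_mul_self] using this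
      have tri2 : ∀ x y : ℍ[ℝ], |(star x * y).re| ≤ ‖φ x * x + φ y * y‖ := by
        intro x y
        have := tri (x + y) (x - y)
        rw [show φ (x + y) * (x + y) + φ (x - y) * (x - y) = (2 : ℝ) • (φ x * x + φ y * y) by
          simp only [map_add, map_sub, two_smul]; noncomm_ring,
          show normSq (x + y) - normSq (x - y) = 4 * (star x * y).re by simp [normSq_def']; ring,
          norm_smul, abs_mul] at this
        generalize (star x * y).re = r at this ⊢
        norm_num at this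
        linarith [norm_nonneg (φ x * x + φ y * y)]
      refine isBounded_iff_forall_norm_le.2 ⟨|a| * ‖α‖ + (|t| + 2 * |b| + 2 * |c|) * ‖α‖, ?_⟩
      rintro _ ⟨x, hx, rfl⟩
      simp only [dotProduct, Fin.sum_univ_two] at hx
      have e1 := tri (x 0) (x 1)
      have e2 := tri2 (x 0) (x 1)
      have e3 := tri2 (x 0) (β * x 1)
      rw [show φ (β * x 1) * (β * x 1) = φ (x 1) * x 1 by
        rw [h.1, hφβ, mul_assoc, neg_mul, hb1, neg_neg]] at e3
      rw [hx] at e1 e2 e3
      have e4 : form φ A x x = a • α + (t * (normSq (x 0) - normSq (x 1)) -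
          2 * b * (star (x 0) * (β * x 1)).re + 2 * c * (star (x 0) * x 1).re) • β := by
        have r1 : ∀ y : ℍ[ℝ], φ y * (β * y) = normSq y • β := by
          intro y
          rw [hφ, neg_mul, mul_assoc, hb1, mul_neg, neg_neg, mul_assoc, star_mul_self,
            mul_coe_eq_smul]
        have r2 : φ (x 0) * (β * x 1) + φ (x 1) * (β * x 0) =
            (2 * (star (x 0) * x 1).re) • β := by
          rw [← mul_coe_eq_smul, ← self_add_star', hφ, hφ]
          simp only [neg_mul, mul_assoc, hb1, mul_neg, neg_neg, star_mul, star_star, mul_add]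
        have r3 : φ (x 0) * x 1 - φ (x 1) * x 0 =
            -((2 * (star (x 0) * (β * x 1)).re) • β) := by
          rw [← mul_coe_eq_smul, ← self_add_star', hφ, hφ]
          simp only [neg_mul, mul_assoc, hb1, mul_neg, neg_neg, star_mul, star_star, mul_add, hsb]
          abel
        simp only [form, dotProduct, mulVec, Fin.sum_univ_two, s3, s4, ha, hb, star_add,
          Quaternion.star_smul,
          star_one, star_trivial, hsb, mul_add, add_mul, smul_mul_assoc, mul_smul_comm, one_mul,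
          neg_mul, mul_neg, r1, ← hx, smul_neg, neg_add]
        rw [eq_sub_of_add_eq r2, eq_add_of_sub_eq r3]
        module
      rw [e4]
      refine (norm_add_le _ _).trans (add_le_add (by rw [norm_smul, Real.norm_eq_abs]) ?_)
      rw [norm_smul, hβ, mul_one, Real.norm_eq_abs]
      refine (abs_add_le _ _).trans ((add_le_add_left (abs_sub _ _) _).trans ?_)
      simp only [abs_mul, abs_two]
      nlinarith [abs_nonneg t, abs_nonneg b, abs_nonneg c]
    · refine isBounded_iff_forall_norm_le.2 ⟨‖a • α‖, ?_⟩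
      rintro _ ⟨x, hx, rfl⟩
      simp [form, smul_mulVec, hx]

end Pool.Agent.Results.MP_dceaed_al.Classify
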